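import Mathlib

/-! Project T4 (MP_68c2bd), row T4-14, part A: the bound for the determinant and polynomials. -/

set_option autoImplicit false

namespace Pool.Agent.H95.T4

open Polynomial

theorem root_bd {N : ℕ} (M : Matrix (Fin N) (Fin N) ℂ) (m : ℕ) (hm : 0 < m)
    (h : M ^ (m + 1) = M) (z : ℂ) (hz : z ∈ M.charpoly.roots) : ‖z‖ ≤ 1 := by
  have h1 : M.charpoly.IsRoot z := (Polynomial.mem_roots (Matrix.charpoly_monic M).ne_zero).1 hz
  have h2 : z ∈ spectrum ℂ M := Matrix.mem_spectrum_iff_isRoot_charpoly.2 h1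
  have h3 : (X ^ (m + 1) - X : ℂ[X]).eval z ∈ spectrum ℂ (aeval M (X ^ (m + 1) - X : ℂ[X])) :=
    spectrum.subset_polynomial_aeval M _ ⟨z, h2, rfl⟩
  have h4 : aeval M (X ^ (m + 1) - X : ℂ[X]) = 0 := by
    simp [h]
  rw [h4] at h3
  have h5 : z ^ (m + 1) - z = 0 := by
    by_contra hne
    apply h3
    have : (X ^ (m + 1) - X : ℂ[X]).eval z = z ^ (m + 1) - z := by simp
    rw [this, spectrum.mem_resolventSet_iff, sub_zero]
    exact (isUnit_iff_ne_zero.2 hne).map (algebraMap ℂ (Matrix (Fin N) (Fin N) ℂ))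
  have h6 : z ^ m * z = 1 * z := by
    rw [one_mul, ← pow_succ]
    exact sub_eq_zero.1 h5
  rcases eq_or_ne z 0 with h0 | h0
  · rw [h0, norm_zero]
    exact zero_le_one
  · have h7 : z ^ m = 1 := mul_right_cancel₀ h0 h6
    have h8 : ‖z‖ ^ m = 1 := by rw [← norm_pow, h7, norm_one]
    exact ((pow_eq_one_iff_of_nonneg (norm_nonneg z) hm.ne').1 h8).le

theorem det_bd {N : ℕ} (M : Matrix (Fin N) (Fin N) ℝ) (m : ℕ) (hm : 0 < m)
    (h : M ^ (m + 1) = M) : |(1 - M).det| ≤ 2 ^ N := by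
  set φ : Matrix (Fin N) (Fin N) ℝ →+* Matrix (Fin N) (Fin N) ℂ :=
    (algebraMap ℝ ℂ).mapMatrix with hφ
  have h1 : (φ M) ^ (m + 1) = φ M := by rw [← map_pow, h]
  have h2 : ((1 - M).det : ℂ) = (φ M).charpoly.eval 1 := by
    rw [Matrix.eval_charpoly]
    have : (Matrix.scalar (Fin N) (1 : ℂ)) - φ M = φ (1 - M) := by
      rw [map_sub, map_one, map_one]
    rw [this, hφ, ← RingHom.map_det]
    rfl
  have h3 : (φ M).charpoly.Splits := IsAlgClosed.splits _
  have h4 : Multiset.card (φ M).charpoly.roots ≤ N := by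
    refine (Polynomial.card_roots' _).trans ?_
    rw [Matrix.charpoly_natDegree_eq_dim, Fintype.card_fin]
  have h5 : |(1 - M).det| = ‖(φ M).charpoly.eval 1‖ := by
    rw [← h2, Complex.norm_real, Real.norm_eq_abs]
  rw [h5, h3.eval_eq_prod_roots_of_monic (Matrix.charpoly_monic _)]
  have h6 : ∀ s : Multiset ℂ, (∀ z ∈ s, ‖z‖ ≤ 1) →
      ‖(s.map (fun z => 1 - z)).prod‖ ≤ 2 ^ Multiset.card s := by
    intro s
    induction s using Multiset.induction_on with
    | empty => simp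
    | cons a s ih =>
      intro hs
      rw [Multiset.map_cons, Multiset.prod_cons, norm_mul, Multiset.card_cons, pow_succ, mul_comm]
      refine mul_le_mul (ih fun z hz => hs z (Multiset.mem_cons_of_mem hz)) ?_ (norm_nonneg _)
        (by positivity)
      calc ‖1 - a‖ ≤ ‖(1 : ℂ)‖ + ‖a‖ := norm_sub_le _ _
        _ ≤ 1 + 1 := by
          rw [norm_one]
          exact add_le_add_right (hs a (Multiset.mem_cons_self a s)) 1
        _ = 2 := by norm_num
  refine (h6 _ fun z hz => root_bd _ m hm h1 z hz).trans ?_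
  exact pow_le_pow_right₀ (by norm_num) h4

/-- A polynomial that is bounded on the natural numbers is constant. -/
theorem poly_const (p : ℝ[X]) (C : ℝ) (h : ∀ k : ℕ, |p.eval (k : ℝ)| ≤ C) (t : ℝ) :
    p.eval t = p.eval 0 := by
  by_cases hd : 0 < p.degree
  · exfalso
    have h1 := (Polynomial.abs_tendsto_atTop p hd).comp
      (tendsto_natCast_atTop_atTop (R := ℝ))
    obtain ⟨k, hk⟩ := ((Filter.tendsto_atTop.1 h1 (C + 1)).exists)
    have h2 := h k
    simp only [Function.comp_apply] at hk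
    linarith
  · rw [Polynomial.eq_C_of_degree_le_zero (not_lt.1 hd), eval_C, eval_C]

/-- The determinant of a polynomial family of matrices is a polynomial. -/
theorem det_poly {N : ℕ} (M₀ : Matrix (Fin N) (Fin N) ℝ) (m : ℕ)
    (M : ℕ → Matrix (Fin N) (Fin N) ℝ) :
    ∃ p : ℝ[X], ∀ t : ℝ, p.eval t = (M₀ - ∑ i ∈ Finset.range m, t ^ i • M i).det := by
  refine ⟨(C.mapMatrix M₀ - ∑ i ∈ Finset.range m, (X ^ i : ℝ[X]) • C.mapMatrix (M i)).det, ?_⟩
  intro t
  have h1 : ∀ P : Matrix (Fin N) (Fin N) ℝ[X],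
      P.det.eval t = ((evalRingHom t).mapMatrix P).det := by
    intro P
    rw [← RingHom.map_det]
    rfl
  rw [h1, map_sub, map_sum]
  congr 1
  congr 1
  · ext i j
    simp
  · refine Finset.sum_congr rfl fun i _ => ?_
    ext a b
    simp
    ring

end Pool.Agent.H95.T4
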